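import Pool.Agent.Y710.C4.Main
import Pool.Agent.H370R2.Local

set_option autoImplicit false

/-! Zeros of large multiplicity, from the Montgomery-Taylor bound for truncated multiplicities. -/

namespace Pool.Agent.Y745.MD

open Complex Filter Topology H370 Pool.Agent.Y710.C4

/-- number of zeros of multiplicity at least `j`, counted with multiplicity -/
noncomputable def Nge (F : ℂ → ℂ) (j : ℕ) (T₁ T₂ : ℝ) : ℕ :=
  ∑ᶠ s ∈ {s : ℂ | s ∈ zset F T₁ T₂ ∧ j ≤ mult F s}, mult F s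

/-- pointwise lower bound for the capped weight -/
lemma wt_lower {F : ℂ → ℂ} {μ θ : ℝ} {j : ℕ} {s : ℂ} (hμ : 2 ≤ μ) (hj : μ ≤ j) (hθ1 : θ ≤ 1)
    (hθ2 : θ ≤ 2 * μ - μ ^ 2 / 2) (hm : 1 ≤ mult F s) :
    θ * mult F s + (2 * μ - μ ^ 2 / j - θ) * (if j ≤ mult F s then (mult F s : ℝ) else 0) ≤ wt μ F s := by
  have hm1 : (1 : ℝ) ≤ mult F s := by exact_mod_cast hm
  have hj0 : (0 : ℝ) < j := by linarith
  unfold wt
  by_cases hjm : j ≤ mult F s
  · rw [if_pos hjm]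
    have hjm' : (j : ℝ) ≤ mult F s := by exact_mod_cast hjm
    have h1 : μ ^ 2 ≤ μ ^ 2 / j * mult F s := by
      rw [div_mul_eq_mul_div, le_div_iff₀ hj0]
      exact mul_le_mul_of_nonneg_left hjm' (sq_nonneg _)
    have e : θ * mult F s + (2 * μ - μ ^ 2 / j - θ) * mult F s =
      2 * μ * mult F s - μ ^ 2 / j * mult F s := by ring
    rw [e]
    split_ifs with h2 h3
    · nlinarith [sq_nonneg ((mult F s : ℝ) - μ)]
    · linarith
    · nlinarith [sq_nonneg μ]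
  · rw [if_neg hjm, mul_zero, add_zero]
    split_ifs with h2 h3
    · nlinarith
    · push Not at h3
      nlinarith
    · nlinarith

/-- **zeros of large multiplicity** -/
theorem tail {F : ℂ → ℂ} (hF : GoodL F) (μ h ε : ℝ) (j : ℕ) (hμ : 2 ≤ μ) (hμ4 : μ ≤ 4) (hj : μ ≤ j)
    (hh0 : 0 < h) (hh1 : h ≤ 1) (hε : 0 < ε) :
    ∃ T0 : ℝ, 1 ≤ T0 ∧ ∀ T : ℝ, T0 ≤ T → ∀ H : ℝ, T ^ h ≤ H → H ≤ T →
      (Nge F j T (T + H) : ℝ) ≤ ((H295SI.cc h - min 1 (2 * μ - μ ^ 2 / 2)) /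
        (2 * μ - μ ^ 2 / j - min 1 (2 * μ - μ ^ 2 / 2)) + ε) * (NN F T (T + H) : ℝ) := by
  classical
  obtain ⟨T0, hT0, hmain⟩ := capped hF μ h ε hμ hh0 hh1 hε
  refine ⟨T0, hT0, fun T hT H hH1 hH2 => ?_⟩
  have hT1 : 1 ≤ T := hT0.trans hT
  have h1 := hmain T hT H hH1 hH2
  set θ : ℝ := min 1 (2 * μ - μ ^ 2 / 2) with hθ
  have hθ1 : θ ≤ 1 := min_le_left _ _
  have hθ2 : θ ≤ 2 * μ - μ ^ 2 / 2 := min_le_right _ _
  have hj0 : (0 : ℝ) < j := by linarith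
  have hD : 1 ≤ 2 * μ - μ ^ 2 / j - θ := by
    have : μ ^ 2 / j ≤ μ := by
      rw [div_le_iff₀ hj0]
      nlinarith
    linarith
  set D : ℝ := 2 * μ - μ ^ 2 / j - θ with hDd
  rw [finsum_Zf hF hT1] at h1
  rw [NN_eq hF hT1] at h1 ⊢
  have hN : (Nge F j T (T + H) : ℝ) =
      ∑ s ∈ Zf F T (T + H), (if j ≤ mult F s then (mult F s : ℝ) else 0) := by
    unfold Nge
    have e1 : ∑ᶠ s ∈ {s : ℂ | s ∈ zset F T (T + H) ∧ j ≤ mult F s}, mult F s =
        ∑ᶠ s ∈ zset F T (T + H), (if j ≤ mult F s then mult F s else 0) := by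
      refine finsum_congr fun s => ?_
      by_cases hs : s ∈ zset F T (T + H)
      · by_cases hj' : j ≤ mult F s
        · simp [hs, hj']
        · simp [hs, hj']
      · simp [hs]
    rw [e1, finsum_Zf hF hT1]
    push_cast
    rfl
  have hsum : θ * ∑ s ∈ Zf F T (T + H), (mult F s : ℝ) + D * (Nge F j T (T + H) : ℝ) ≤
      ∑ s ∈ Zf F T (T + H), wt μ F s := by
    rw [hN, Finset.mul_sum, Finset.mul_sum, ← Finset.sum_add_distrib]
    refine Finset.sum_le_sum fun s hs => ?_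
    have hs' := (mem_Zf hF hT1).mp hs
    exact wt_lower hμ hj hθ1 hθ2 (H370.Loc.mult_pos' hF (by linarith [hs'.2.2.1]) hs'.2.2.2.2)
  push_cast at h1 ⊢
  set M : ℝ := ∑ s ∈ Zf F T (T + H), (mult F s : ℝ) with hM
  have hM0 : 0 ≤ M := Finset.sum_nonneg fun s _ => Nat.cast_nonneg _
  have h2 : D * (Nge F j T (T + H) : ℝ) ≤ (H295SI.cc h - θ) * M + ε * M := by linarith
  have hD0 : 0 < D := by linarith
  have h3 : (Nge F j T (T + H) : ℝ) ≤ ((H295SI.cc h - θ) * M + ε * M) / D := by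
    rw [le_div_iff₀ hD0]
    linarith
  refine h3.trans ?_
  have e2 : ((H295SI.cc h - θ) * M + ε * M) / D = ((H295SI.cc h - θ) / D) * M + ε * M / D := by ring
  rw [e2, add_mul]
  have h4 : ε * M / D ≤ ε * M := div_le_self (by positivity) hD
  linarith

end Pool.Agent.Y745.MD
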